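import Pool.Agent.TH867.SQ.Line
import Pool.Agent.TH867.SR.LB

set_option autoImplicit false

namespace Pool.Agent.Results.MP_4d5ce1_nt.AllHeightsSharp

open Finset

/-- Normalised coprime integer coordinates: each point `[x₀ : x₁]` of the projective line over `ℚ`
has exactly one such pair. -/
def Nrm (x : ℤ × ℤ) : Prop := IsCoprime x.1 x.2 ∧ (0 < x.2 ∨ x.2 = 0 ∧ 0 < x.1)

/-- The sum over the primes `p ∉ S` and over `ℓ` of the truncated local heights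
`λ⁽¹⁾_p(α_ℓ, x)`: for coprime coordinates of `x` and `α_ℓ` this is `log p` if
`p ∣ x₀ a₁ - x₁ a₀` and `0` otherwise. -/
noncomputable def N1 {q : ℕ} (α : Fin q → ℤ × ℤ) (S : Finset ℕ) (x : ℤ × ℤ) : ℝ :=
  ∑ i, ∑ p ∈ (x.1 * (α i).2 - x.2 * (α i).1).natAbs.primeFactors \ S, Real.log p

/-- The points `x`, different from all the `α_ℓ`, with
`∑_{p ∉ S} ∑_ℓ λ⁽¹⁾_p(α_ℓ, x) ≤ log X`; there is no condition on the height of `x`. -/
def Pts {q : ℕ} (α : Fin q → ℤ × ℤ) (S : Finset ℕ) (X : ℝ) : Set (ℤ × ℤ) :=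
  {x | Nrm x ∧ (∀ i, x.1 * (α i).2 - x.2 * (α i).1 ≠ 0) ∧ N1 α S x ≤ Real.log X}

/-- the linear forms -/
def FL {q : ℕ} (α : Fin q → ℤ × ℤ)
    (hα : ∀ i j, i ≠ j → (α i).1 * (α j).2 ≠ (α j).1 * (α i).2) : Pool.Agent.TH867.QF.Fm q where
  u i := (α i).2
  w i := - (α i).1
  res i j hij h0 := hα i j hij (by linarith)

open Pool.Agent.TH867.QF in
theorem ev_eq {q : ℕ} (α : Fin q → ℤ × ℤ)
    (hα : ∀ i j, i ≠ j → (α i).1 * (α j).2 ≠ (α j).1 * (α i).2) (x : ℤ × ℤ) (i : Fin q) :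
    ev (FL α hα) x i = x.1 * (α i).2 - x.2 * (α i).1 := by
  unfold ev FL
  ring

open Pool.Agent.TH867.QF in
theorem va_eq {q : ℕ} (α : Fin q → ℤ × ℤ)
    (hα : ∀ i j, i ≠ j → (α i).1 * (α j).2 ≠ (α j).1 * (α i).2) (x : ℤ × ℤ) (i : Fin q) :
    va (FL α hα) x i = (x.1 * (α i).2 - x.2 * (α i).1).natAbs := by
  unfold va
  rw [ev_eq]

theorem sdiff_le (A S : Finset ℕ) :
    ∑ p ∈ A, Real.log (p : ℝ) ≤ ∑ p ∈ A \ S, Real.log (p : ℝ) + ∑ p ∈ S, Real.log (p : ℝ) := by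
  classical
  have hf : ∀ q : ℕ, 0 ≤ Real.log (q : ℝ) := fun q => Real.log_natCast_nonneg q
  rw [← Finset.sum_sdiff (Finset.inter_subset_left : A ∩ S ⊆ A)]
  have e : A \ (A ∩ S) = A \ S := by
    ext p; simp only [Finset.mem_sdiff, Finset.mem_inter]; tauto
  rw [e]
  have := Finset.sum_le_sum_of_subset_of_nonneg (f := fun p : ℕ => Real.log (p : ℝ))
    (Finset.inter_subset_right : A ∩ S ⊆ S) fun p _ _ => hf p
  linarith

open Pool.Agent.TH867.QF Pool.Agent.TH867.SQ in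
theorem lr_sum {q : ℕ} (α : Fin q → ℤ × ℤ)
    (hα : ∀ i j, i ≠ j → (α i).1 * (α j).2 ≠ (α j).1 * (α i).2) (S : Finset ℕ) (x : ℤ × ℤ) :
    ∑ i, lr (va (FL α hα) x i) ≤ N1 α S x + (q : ℝ) * ∑ p ∈ S, Real.log (p : ℝ) := by
  classical
  have h1 : ∀ i, lr (va (FL α hα) x i) ≤
      ∑ p ∈ (x.1 * (α i).2 - x.2 * (α i).1).natAbs.primeFactors \ S, Real.log (p : ℝ) +
        ∑ p ∈ S, Real.log (p : ℝ) := by
    intro i
    rw [va_eq]
    exact sdiff_le _ _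
  refine (Finset.sum_le_sum fun i _ => h1 i).trans (le_of_eq ?_)
  rw [Finset.sum_add_distrib, Finset.sum_const, Finset.card_univ, Fintype.card_fin, nsmul_eq_mul]
  rfl

open Pool.Agent.TH867.QF Pool.Agent.TH867.SQ in
theorem upper (q : ℕ) (hq : 3 ≤ q) (α : Fin q → ℤ × ℤ)
    (hα : ∀ i j, i ≠ j → (α i).1 * (α j).2 ≠ (α j).1 * (α i).2) (S : Finset ℕ) (ε : ℝ)
    (hε : 0 < ε) : ∃ C : ℝ, 0 < C ∧ ∀ X : ℝ, 1 ≤ X → (Pts α S X).Finite ∧
      ((Pts α S X).ncard : ℝ) ≤ C * X ^ (2 / (q : ℝ) + ε) := by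
  classical
  obtain ⟨d, rfl⟩ : ∃ d, q = d + 3 := ⟨q - 3, by omega⟩
  obtain ⟨D, hD, hmain⟩ := line_all (FL α hα) ε hε
  obtain ⟨c, hc⟩ : ∃ c : ℝ, c = ((d + 3 : ℕ) : ℝ) * ∑ p ∈ S, Real.log (p : ℝ) := ⟨_, rfl⟩
  have hc0 : 0 ≤ c := by
    rw [hc]
    have : 0 ≤ ∑ p ∈ S, Real.log (p : ℝ) :=
      Finset.sum_nonneg fun p _ => Real.log_natCast_nonneg p
    positivity
  refine ⟨D * Real.exp c ^ (2 / ((d + 3 : ℕ) : ℝ) + ε), by positivity, fun X hX => ?_⟩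
  have hX0 : 0 < X := by linarith
  have hec : 1 ≤ Real.exp c := Real.one_le_exp hc0
  have hXe : 1 ≤ X * Real.exp c := by nlinarith
  have key : ∀ F : Finset (ℤ × ℤ), (F : Set (ℤ × ℤ)) ⊆ Pts α S X → (F.card : ℝ) ≤
      D * Real.exp c ^ (2 / ((d + 3 : ℕ) : ℝ) + ε) * X ^ (2 / ((d + 3 : ℕ) : ℝ) + ε) := by
    intro F hF
    have h1 := hmain (X * Real.exp c) hXe F (fun t ht => by
      obtain ⟨⟨g1, g2⟩, g3, g5⟩ := hF (Finset.mem_coe.2 ht)
      have hpt : Pt (FL α hα) t := ⟨g1, fun i => by rw [ev_eq]; exact g3 i⟩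
      refine ⟨hpt, ?_⟩
      have h2 := lr_sum α hα S t
      rw [Real.log_mul hX0.ne' (Real.exp_pos _).ne', Real.log_exp, hc]
      linarith)
    refine h1.trans (le_of_eq ?_)
    rw [Real.mul_rpow hX0.le (Real.exp_pos _).le]
    push_cast
    ring
  have hfin : (Pts α S X).Finite := by
    by_contra hinf
    obtain ⟨F, hF, hFc⟩ := Set.Infinite.exists_subset_card_eq hinf
      (⌊D * Real.exp c ^ (2 / ((d + 3 : ℕ) : ℝ) + ε) * X ^ (2 / ((d + 3 : ℕ) : ℝ) + ε)⌋₊ + 1)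
    have h1 := key F hF
    rw [hFc] at h1
    have h2 := Nat.lt_floor_add_one
      (D * Real.exp c ^ (2 / ((d + 3 : ℕ) : ℝ) + ε) * X ^ (2 / ((d + 3 : ℕ) : ℝ) + ε))
    push_cast at h1 h2
    linarith
  refine ⟨hfin, ?_⟩
  have h1 := key hfin.toFinset (by simp)
  rwa [← Set.ncard_eq_toFinset_card _ hfin] at h1

open Pool.Agent.TH867.QF in
theorem lower (q : ℕ) (hq : 3 ≤ q) (α : Fin q → ℤ × ℤ)
    (hα : ∀ i j, i ≠ j → (α i).1 * (α j).2 ≠ (α j).1 * (α i).2) (S : Finset ℕ) :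
    ∃ c : ℝ, 0 < c ∧ ∃ X₀ : ℝ, ∀ X : ℝ, X₀ ≤ X →
      c * X ^ (2 / (q : ℝ)) ≤ ((Pts α S X).ncard : ℝ) := by
  classical
  obtain ⟨u, hu⟩ : ∃ u, u = U (FL α hα) := ⟨_, rfl⟩
  have hu1 : 1 ≤ u := by rw [hu]; exact U_pos _
  have huR : (1 : ℝ) ≤ u := by exact_mod_cast hu1
  have huR0 : (0 : ℝ) < u := by linarith
  have hqR : (3 : ℝ) ≤ q := by exact_mod_cast hq
  have hq0 : (0 : ℝ) < q := by linarith
  have : NeZero q := ⟨by omega⟩
  refine ⟨1 / (64 * u ^ 2), by positivity, max 1 ((8 * u * q) ^ (q : ℝ)), fun X hX => ?_⟩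
  have hX1 : 1 ≤ X := (le_max_left _ _).trans hX
  have hX0 : 0 < X := by linarith
  have hfinS : (Pts α S X).Finite := by
    obtain ⟨C, -, hC⟩ := upper q hq α hα S 1 one_pos
    exact (hC X hX1).1
  obtain ⟨Y, hY⟩ : ∃ Y : ℝ, Y = X ^ (1 / (q : ℝ)) := ⟨_, rfl⟩
  have hY0 : 0 < Y := by rw [hY]; positivity
  have hYbig : 8 * u * q ≤ Y := by
    have h1 : ((8 * u * q) ^ (q : ℝ)) ^ (1 / (q : ℝ)) ≤ X ^ (1 / (q : ℝ)) :=
      Real.rpow_le_rpow (by positivity) ((le_max_right _ _).trans hX) (by positivity)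
    rwa [← Real.rpow_mul (by positivity), mul_one_div_cancel hq0.ne', Real.rpow_one, ← hY] at h1
  obtain ⟨N, hN⟩ : ∃ N : ℕ, N = ⌊Y / u⌋₊ := ⟨_, rfl⟩
  have hNle : (N : ℝ) ≤ Y / u := by rw [hN]; exact Nat.floor_le (by positivity)
  have hNge : Y / u - 1 < N := by rw [hN]; exact Nat.sub_one_lt_floor _
  have hYu : 8 * q ≤ Y / u := by
    rw [le_div_iff₀ huR0]
    linarith
  have hN2 : Y / u / 2 ≤ N := by linarith
  have hN1 : 1 ≤ N := by
    have : (1 : ℝ) ≤ N := by linarith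
    exact_mod_cast this
  have hYlog : Real.log Y = Real.log X / q := by
    rw [hY, Real.log_rpow hX0]; ring
  -- the pairs
  let φ : ℕ × ℕ → ℤ × ℤ := fun p => ((p.1 : ℤ), (p.2 : ℤ))
  have hφ : Function.Injective φ := by
    intro p p' hp
    simp only [φ, Prod.mk.injEq, Nat.cast_inj] at hp
    exact Prod.ext hp.1 hp.2
  set G := Pool.Agent.TH867.SR.cpp N with hG
  set B : Fin q → Finset (ℕ × ℕ) := fun i =>
    G.filter fun p => (p.1 : ℤ) * (α i).2 - (p.2 : ℤ) * (α i).1 = 0 with hB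
  have hmemG : ∀ p ∈ G, 0 < p.1 ∧ p.1 ≤ N ∧ 0 < p.2 ∧ p.2 ≤ N ∧ Nat.Coprime p.1 p.2 := by
    intro p hp
    obtain ⟨h1, _, h3⟩ := Finset.mem_filter.1 hp
    rw [Finset.mem_product, Finset.mem_Ioc, Finset.mem_Ioc] at h1
    exact ⟨h1.1.1, h1.1.2, h1.2.1, h1.2.2, h3⟩
  have hBcard : ∀ i, (B i).card ≤ 1 := by
    intro i
    rw [Finset.card_le_one]
    intro p hp p' hp'
    obtain ⟨a1, a2⟩ := Finset.mem_filter.1 hp
    obtain ⟨b1, b2⟩ := Finset.mem_filter.1 hp'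
    obtain ⟨a3, -, a4, -, a5⟩ := hmemG p a1
    obtain ⟨b3, -, b4, -, b5⟩ := hmemG p' b1
    obtain ⟨j, hj⟩ : ∃ j : Fin q, i ≠ j := by
      by_contra hcon
      push Not at hcon
      have e1 := hcon ⟨0, by omega⟩
      have e2 := hcon ⟨1, by omega⟩
      rw [e1] at e2
      exact absurd (Fin.mk.inj_iff.1 e2) (by norm_num)
    have hd : dt (φ p) (φ p') = 0 := by
      have h1 : (α i).2 * dt (φ p) (φ p') = 0 := by
        simp only [dt, φ]
        linear_combination (p'.2 : ℤ) * a2 - (p.2 : ℤ) * b2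
      have h2 : (α i).1 * dt (φ p) (φ p') = 0 := by
        simp only [dt, φ]
        linear_combination (p'.1 : ℤ) * a2 - (p.1 : ℤ) * b2
      rcases mul_eq_zero.1 h1 with h3 | h3
      · rcases mul_eq_zero.1 h2 with h4 | h4
        · exfalso
          apply hα i j hj
          rw [h3, h4]; ring
        · exact h4
      · exact h3
    obtain ⟨c, hc, c1, c2⟩ := proportional (P := φ p) (P' := φ p')
      (Nat.isCoprime_iff_coprime.2 a5) (Nat.isCoprime_iff_coprime.2 b5) hd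
    simp only [φ] at c1 c2
    rcases hc with rfl | rfl
    · apply hφ
      simp only [φ]
      rw [c1, c2, one_mul, one_mul]
    · exfalso
      omega
  have hcov : G ⊆ (G.filter fun p => ∀ i, (p.1 : ℤ) * (α i).2 - (p.2 : ℤ) * (α i).1 ≠ 0) ∪
      (Finset.univ : Finset (Fin q)).biUnion B := by
    intro p hp
    rw [Finset.mem_union]
    by_cases h0 : ∀ i, (p.1 : ℤ) * (α i).2 - (p.2 : ℤ) * (α i).1 ≠ 0
    · exact Or.inl (Finset.mem_filter.2 ⟨hp, h0⟩)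
    · push Not at h0
      obtain ⟨i, hi⟩ := h0
      exact Or.inr (Finset.mem_biUnion.2 ⟨i, Finset.mem_univ _, Finset.mem_filter.2 ⟨hp, hi⟩⟩)
  set G' := G.filter fun p => ∀ i, (p.1 : ℤ) * (α i).2 - (p.2 : ℤ) * (α i).1 ≠ 0 with hG'
  have hcard1 : (G.card : ℝ) ≤ (G'.card : ℝ) + q := by
    have h1 : G.card ≤ G'.card + q := by
      refine (Finset.card_le_card hcov).trans ((Finset.card_union_le _ _).trans ?_)
      refine Nat.add_le_add_left ?_ _
      refine (Finset.card_biUnion_le_card_mul _ _ 1 fun i _ => hBcard i).trans (le_of_eq ?_)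
      rw [Finset.card_univ, Fintype.card_fin, Nat.mul_one]
    exact_mod_cast h1
  have hcard2 := Pool.Agent.TH867.SR.coprime_count N hN1
  have hsub : (G'.image φ : Set (ℤ × ℤ)) ⊆ Pts α S X := by
    intro x hx
    rw [Finset.mem_coe, Finset.mem_image] at hx
    obtain ⟨p, hp, rfl⟩ := hx
    obtain ⟨a1, a2⟩ := Finset.mem_filter.1 hp
    obtain ⟨b1, b2, b3, b4, b5⟩ := hmemG p a1
    have hcop : IsCoprime (φ p).1 (φ p).2 := Nat.isCoprime_iff_coprime.2 b5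
    have hpt : Pt (FL α hα) (φ p) := ⟨hcop, fun i => by rw [ev_eq]; exact a2 i⟩
    have hht : ht (φ p) ≤ N := by
      refine max_le ?_ ?_
      · show ((p.1 : ℤ)).natAbs ≤ N
        rw [Int.natAbs_natCast]; exact b2
      · show ((p.2 : ℤ)).natAbs ≤ N
        rw [Int.natAbs_natCast]; exact b4
    have hhR : (ht (φ p) : ℝ) ≤ Y / u := by
      have : (ht (φ p) : ℝ) ≤ N := by exact_mod_cast hht
      linarith
    have hht0 : (0 : ℝ) < ht (φ p) := by exact_mod_cast ht_pos hpt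
    refine ⟨⟨hcop, Or.inl ?_⟩, a2, ?_⟩
    · show (0 : ℤ) < (p.2 : ℤ)
      exact_mod_cast b3
    · unfold N1
      have h1 : ∀ i : Fin q, ∑ s ∈ ((φ p).1 * (α i).2 - (φ p).2 * (α i).1).natAbs.primeFactors \ S,
          Real.log (s : ℝ) ≤ Real.log X / q := by
        intro i
        have hf : ∀ s : ℕ, 0 ≤ Real.log (s : ℝ) := fun s => Real.log_natCast_nonneg s
        have h2 : ∑ s ∈ ((φ p).1 * (α i).2 - (φ p).2 * (α i).1).natAbs.primeFactors \ S,
            Real.log (s : ℝ) ≤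
            ∑ s ∈ ((φ p).1 * (α i).2 - (φ p).2 * (α i).1).natAbs.primeFactors, Real.log (s : ℝ) :=
          Finset.sum_le_sum_of_subset_of_nonneg Finset.sdiff_subset fun s _ _ => hf s
        refine h2.trans ?_
        rw [← ev_eq α hα]
        have h3 : ∑ s ∈ (ev (FL α hα) (φ p) i).natAbs.primeFactors, Real.log (s : ℝ) ≤
            Real.log (va (FL α hα) (φ p) i) := by
          rw [← Pool.Agent.TH867.SR.log_prod_primes fun s hs => Nat.prime_of_mem_primeFactors hs]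
          refine Real.log_le_log ?_ ?_
          · exact_mod_cast Finset.prod_pos fun s hs => (Nat.prime_of_mem_primeFactors hs).pos
          · exact_mod_cast Nat.le_of_dvd (va_pos hpt i) (Nat.prod_primeFactors_dvd _)
        refine h3.trans ?_
        rw [← hYlog]
        refine Real.log_le_log (by exact_mod_cast va_pos hpt i) ?_
        have h4 : (va (FL α hα) (φ p) i : ℝ) ≤ u * ht (φ p) := by
          rw [hu]
          exact_mod_cast va_le (FL α hα) (φ p) i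
        refine h4.trans ?_
        have h5 : (u : ℝ) * ht (φ p) ≤ u * (Y / u) := mul_le_mul_of_nonneg_left hhR huR0.le
        rwa [mul_div_cancel₀ _ huR0.ne'] at h5
      refine (Finset.sum_le_sum fun i _ => h1 i).trans (le_of_eq ?_)
      rw [Finset.sum_const, Finset.card_univ, Fintype.card_fin, nsmul_eq_mul]
      field_simp
  have hfinal : (G'.card : ℝ) ≤ ((Pts α S X).ncard : ℝ) := by
    have h1 : (G'.image φ).card ≤ (Pts α S X).ncard := by
      rw [← Set.ncard_coe_finset]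
      exact Set.ncard_le_ncard hsub hfinS
    rw [Finset.card_image_of_injective _ hφ] at h1
    exact_mod_cast h1
  refine le_trans ?_ hfinal
  have hYY : X ^ (2 / (q : ℝ)) = Y ^ 2 := by
    rw [hY, ← Real.rpow_natCast (X ^ (1 / (q : ℝ))) 2, ← Real.rpow_mul hX0.le]
    congr 1
    push_cast
    ring
  rw [hYY]
  have e1 : (Y / u / 2) ^ 2 ≤ (N : ℝ) ^ 2 := pow_le_pow_left₀ (by positivity) hN2 2
  have e2 : (8 * (q : ℝ)) * (8 * q) ≤ (Y / u) * (Y / u) :=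
    mul_le_mul hYu hYu (by positivity) (by positivity)
  have e3 : (q : ℝ) ≤ (Y / u) ^ 2 / 64 := by
    rw [sq, le_div_iff₀ (by norm_num)]
    nlinarith
  have e4 : 1 / (64 * (u : ℝ) ^ 2) * Y ^ 2 = (Y / u) ^ 2 / 64 := by
    field_simp
  have e5 : (Y / u / 2) ^ 2 = (Y / u) ^ 2 / 4 := by ring
  rw [e4]
  rw [e5] at e1
  linarith

/-- **Points of the projective line by truncated counting function.** Let `q ≥ 3`, let
`α_1, …, α_q` be distinct points of `ℙ¹(ℚ)` (coprime integer coordinates) and `S` a finite set of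
primes. The number of all points `x ∈ ℙ¹(ℚ)`, different from all the `α_ℓ`, of whatever height, with
`∑_{p ∉ S} ∑_ℓ λ⁽¹⁾_p(α_ℓ, x) ≤ log X` is at most `C X^(2/q+ε)` for all `X ≥ 1`, with `C`
depending on the `α_ℓ`, `S` and `ε` only, and it is at least `c X^(2/q)` for large `X`. -/
theorem result (q : ℕ) (hq : 3 ≤ q) (α : Fin q → ℤ × ℤ)
    (_hcop : ∀ i, IsCoprime (α i).1 (α i).2)
    (hα : ∀ i j, i ≠ j → (α i).1 * (α j).2 ≠ (α j).1 * (α i).2) (S : Finset ℕ) :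
    (∀ ε : ℝ, 0 < ε → ∃ C : ℝ, 0 < C ∧ ∀ X : ℝ, 1 ≤ X →
      (Pts α S X).Finite ∧
      ((Pts α S X).ncard : ℝ) ≤ C * X ^ (2 / (q : ℝ) + ε)) ∧
    (∃ c : ℝ, 0 < c ∧ ∃ X₀ : ℝ, ∀ X : ℝ, X₀ ≤ X →
      c * X ^ (2 / (q : ℝ)) ≤ ((Pts α S X).ncard : ℝ)) :=
  ⟨fun ε hε => upper q hq α hα S ε hε, lower q hq α hα S⟩

end Pool.Agent.Results.MP_4d5ce1_nt.AllHeightsSharp
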