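import Pool.Agent.TH498.KB.P1

/-!
The abc conjecture for finite subsets of the projective line: bounds for the number of the rational
points `x` that violate the inequality, for divisors over the rational numbers whose points may be
conjugate over the rational numbers (for instance, points of degree at most two).
-/

set_option autoImplicit false

namespace Pool.Agent.Results.MP_4d5ce1_nt.BlocksOfPoints

open NumberField IsDedekindDomain

/-- the absolute logarithmic height of the point `[x : 1]` -/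
noncomputable def height {K : Type} [Field K] [NumberField K] (x : K) : ℝ :=
  (∑ w : InfinitePlace K, (w.mult : ℝ) * Real.log (max (w x) (w 1)) +
    ∑ᶠ v : HeightOneSpectrum (RingOfIntegers K),
      Real.log (max (FinitePlace.mk v x) (FinitePlace.mk v 1))) /
    (Module.finrank ℚ K : ℝ)

/-- the truncated counting function of the point `[x : 1]` with respect to the points
`[(α l).1 : (α l).2]`: the sum over the primes outside `T` and over `l` of the truncated local
heights -/
noncomputable def counting {K : Type} [Field K] [NumberField K]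
    (T : Set (HeightOneSpectrum (RingOfIntegers K))) {q : ℕ} (α : Fin q → K × K) (x : K) : ℝ :=
  ∑ᶠ (v : HeightOneSpectrum (RingOfIntegers K)) (_ : v ∉ T),
    ∑ l : Fin q,
      min
        (Real.log
            (max (FinitePlace.mk v x) (FinitePlace.mk v 1) *
              max (FinitePlace.mk v (α l).1) (FinitePlace.mk v (α l).2) /
              FinitePlace.mk v (x * (α l).2 - 1 * (α l).1)) /
          (Module.finrank ℚ K : ℝ))
        (Real.log (Ideal.absNorm v.asIdeal : ℝ) / (Module.finrank ℚ K : ℝ))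

/-- the set of the `x ∈ ℚ` of height `H(x) ≤ B`, different from the `α_l`, with
`∑_{v ∉ T} ∑_l λ^(1)_v(α_l, x) < (q - κ) h(x) + c₀` -/
def exceptional {K : Type} [Field K] [NumberField K]
    (T : Set (HeightOneSpectrum (RingOfIntegers K))) {q : ℕ} (α : Fin q → K × K)
    (κ c₀ B : ℝ) : Set ℚ :=
  {x : ℚ | (∀ l, (x : K) * (α l).2 - 1 * (α l).1 ≠ 0) ∧ Real.exp (height (x : K)) ≤ B ∧
    counting T α (x : K) < (q - κ) * height (x : K) + c₀}

open Polynomial in
/-- Let `f = g_1 ⋯ g_w h_1 ⋯ h_L ∈ ℤ[X]` be squarefree, `deg g_j ≤ n_j`, `n_j ≥ 2`, `deg h_i ≤ 1`,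
`q = n_1 + ⋯ + n_w + L ≤ deg f + 1`, where `w + L ≥ 1` and `L ≠ 1`; so the binary form
`F = ∑_j f_j X^j Y^(q-j)` is a product of `w` forms of degrees `n_j ≥ 2` and of `L` linear forms over
`ℚ`. Let `K` be a number field in which `F` has `q` zeros `α_1, …, α_q`, that is, distinct points of
the projective line over `K`. Let `T` be a finite set of primes of `K`, `κ ≤ q` and `c₀` real, and
`δ > 0`. Then at most `C B ^ (2 (q - κ) / (L + 2 w) + δ)` rational numbers `x` of height `H(x) ≤ B`
satisfy `∑_{v ∉ T} ∑_l λ^(1)_v(α_l, x) < (q - κ) h(x) + c₀`. If all `n_j` are `2`, this is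
`C B ^ (2 - 2 κ / q + δ)`. -/
theorem result :
    ∀ (K : Type) [Field K] [NumberField K]
      (T : Set (HeightOneSpectrum (RingOfIntegers K))), T.Finite →
      ∀ (q : ℕ) (α : Fin q → K × K),
        (∀ i, α i ≠ 0) →
        (∀ i j, i ≠ j → (α i).1 * (α j).2 - (α i).2 * (α j).1 ≠ 0) →
        ∀ (w L : ℕ), L ≠ 1 → 1 ≤ w + L →
        ∀ (g : Fin w → ℤ[X]) (n : Fin w → ℕ), (∀ j, (g j).natDegree ≤ n j ∧ 2 ≤ n j) →
        ∀ h : Fin L → ℤ[X], (∀ i, (h i).natDegree ≤ 1) →
        ∑ j, n j + L = q →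
        Squarefree (((∏ j, g j) * ∏ i, h i).map (Int.castRingHom ℚ)) →
        q ≤ ((∏ j, g j) * ∏ i, h i).natDegree + 1 →
        (∀ l, ∑ j ∈ Finset.range (q + 1),
          (((∏ j, g j) * ∏ i, h i).coeff j : K) * (α l).1 ^ j * (α l).2 ^ (q - j) = 0) →
        ∀ κ c₀ δ : ℝ, κ ≤ q → 0 < δ →
          ∃ C : ℝ, 0 < C ∧ ∀ B : ℝ, 1 ≤ B →
            (exceptional T α κ c₀ B).Finite ∧
            ((exceptional T α κ c₀ B).ncard : ℝ) ≤
              C * B ^ (2 * (q - κ) / (L + 2 * w) + δ) := by
  intro K _ _ T hT q α hα0 hα w L hL hwL g n hgn h hh hq hsq hdeg hF κ c₀ δ h3 hδ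
  have hle : ((∏ j, g j) * ∏ i, h i).natDegree ≤ q := by
    refine natDegree_mul_le.trans ?_
    rw [← hq]
    refine add_le_add ((natDegree_prod_le _ _).trans (Finset.sum_le_sum fun j _ => (hgn j).1)) ?_
    refine (natDegree_prod_le _ _).trans ((Finset.sum_le_sum fun i _ => hh i).trans ?_)
    simp
  exact Pool.Agent.TH498.KB.p1_main K T hT q α hα0 hα w L hL hwL g n (fun j => (hgn j).1)
    (fun j => (hgn j).2) h hh hq ⟨hsq, hle, hdeg⟩ hF κ c₀ δ h3 hδ

end Pool.Agent.Results.MP_4d5ce1_nt.BlocksOfPoints
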