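import Pool.Agent.TH876.GR.Scale
import Pool.Agent.TH876.GR.Small
import Pool.Agent.TH876.GR.Main
import Pool.Agent.TH876.GR.Side
import Pool.Agent.TH876.GR.Fin

/-!
# The number of `S`-integral elements of a number field with a small truncated counting function
relative to `q` finite points, with the sharp exponent `1 / q`

`K` is a number field, `S` a finite set of primes, `a 0, ..., a (q - 1)` are `q ≥ 2` different
elements of `K`. For `S`-integral `x` the truncated counting function relative to the divisor
`a 0 + ... + a (q - 1) + ∞` is that relative to the finite points.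
-/

set_option autoImplicit false

namespace Pool.Agent.Results.MP_4d5ce1_nt.IntegralPointsSharp

open NumberField IsDedekindDomain

variable {K : Type} [Field K] [NumberField K]

/-- the truncated counting function of `x` relative to the points `a 0, ..., a (q - 1)`: the sum
of `log N(v)` over the primes `v` outside `S` with `x ≡ a i` modulo `v` for some `i` -/
noncomputable def counting (S : Set (HeightOneSpectrum (𝓞 K))) {q : ℕ} (a : Fin q → K) (x : K) : ℝ :=
  ∑ᶠ v ∈ {v : HeightOneSpectrum (𝓞 K) | v ∉ S ∧ ∃ i, v.valuation K (x - a i) < 1},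
    Real.log (Ideal.absNorm v.asIdeal : ℝ)

/-- the `S`-integral elements `x` of height at most `H`, different from the `a i`, with
`exp N^(1)_S(a, x) ≤ X` -/
def Points (S : Set (HeightOneSpectrum (𝓞 K))) {q : ℕ} (a : Fin q → K) (X H : ℝ) : Set K :=
  {x | (∀ v, v ∉ S → v.valuation K x ≤ 1) ∧ (∀ i, x ≠ a i) ∧
    Real.exp (counting S a x) ≤ X ∧ Height.logHeight₁ x ≤ H}

/-- Let `a 0, ..., a (q - 1)` be `q ≥ 2` different elements of the number field `K`, `S` a finite
set of primes of `K` and `ε > 0`. For all `X, H ≥ 1` at most `C H X ^ (1 / q + ε)` `S`-integral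
elements `x` of `K` of height at most `H` satisfy `exp N^(1)_S(a, x) ≤ X`. -/
theorem result (K : Type) [Field K] [NumberField K] (S : Set (HeightOneSpectrum (𝓞 K)))
    (hS : S.Finite) (q : ℕ) (hq : 2 ≤ q) (a : Fin q → K) (ha : Function.Injective a) (ε : ℝ)
    (hε : 0 < ε) :
    ∃ C : ℝ, ∀ X H : ℝ, 1 ≤ X → 1 ≤ H → (Points S a X H).Finite ∧
      ((Points S a X H).ncard : ℝ) ≤ C * H * X ^ (1 / (q : ℝ) + ε) :=
  Pool.Agent.TH876.GR.final K
    (fun c hc => Pool.Agent.TH876.GR.mainBound K (1 / 2) c (by norm_num) (by norm_num) hc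
      (Pool.Agent.TH876.GR.scaleBound K (1 / 2) c (by norm_num) (by norm_num) hc)
      (Pool.Agent.TH876.GR.smallBound K (1 / 2) c (by norm_num) hc))
    (fun S0 => Pool.Agent.TH876.GR.adm_of_side K S0) S hS q hq a ha ε hε

end Pool.Agent.Results.MP_4d5ce1_nt.IntegralPointsSharp
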