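import Pool.Agent.TH498.HF.P3

/-!
The abc conjecture for finite subsets of the projective line over a number field: the points of any
height, counted by their truncated counting function.
-/

set_option autoImplicit false

namespace Pool.Agent.Results.MP_4d5ce1_nt.PointsOfAnyHeight

open NumberField IsDedekindDomain

/-- the truncated counting function of the point `[x : 1]` with respect to the points
`[(α l).1 : (α l).2]`: the sum over the primes outside `T` and over `l` of the truncated local
heights -/
noncomputable def counting {K : Type} [Field K] [NumberField K]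
    (T : Set (HeightOneSpectrum (RingOfIntegers K))) {q : ℕ} (α : Fin q → K × K) (x : K) : ℝ :=
  ∑ᶠ (v : HeightOneSpectrum (RingOfIntegers K)) (_ : v ∉ T),
    ∑ l : Fin q,
      min
        (Real.log
            (max (FinitePlace.mk v x) (FinitePlace.mk v 1) *
              max (FinitePlace.mk v (α l).1) (FinitePlace.mk v (α l).2) /
              FinitePlace.mk v (x * (α l).2 - 1 * (α l).1)) /
          (Module.finrank ℚ K : ℝ))
        (Real.log (Ideal.absNorm v.asIdeal : ℝ) / (Module.finrank ℚ K : ℝ))

/-- the set of all `x ∈ K` (of any height) different from the `α_l` with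
`∑_{v ∉ T} ∑_l λ^(1)_v(α_l, x) ≤ log R` -/
def small {K : Type} [Field K] [NumberField K]
    (T : Set (HeightOneSpectrum (RingOfIntegers K))) {q : ℕ} (α : Fin q → K × K) (R : ℝ) :
    Set K :=
  {x : K | (∀ l, x * (α l).2 - 1 * (α l).1 ≠ 0) ∧ counting T α x ≤ Real.log R}

open Pool.Agent.H691R3 Pool.Agent.TH876.Loc Pool.Agent.TH498.HF in
/-- Let `q ≥ 3` and `d ≥ 1`. There is `k` such that for every number field `K` of degree `d`, every
finite set `T` of primes and all distinct points `α_1, …, α_q` of the projective line over `K` there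
is `C` such that for `R ≥ 16` at most `C R ^ (3 d / q) (log log R) ^ k / log R` elements `x` of `K`,
of any height, satisfy `∑_{v ∉ T} ∑_l λ^(1)_v(α_l, x) ≤ log R`. -/
theorem result (d q : ℕ) (hq : 3 ≤ q) : ∃ k : ℕ,
    ∀ (K : Type) [Field K] [NumberField K], Module.finrank ℚ K = d →
    ∀ (T : Set (HeightOneSpectrum (RingOfIntegers K))), T.Finite →
      ∀ (α : Fin q → K × K), (∀ i, α i ≠ 0) →
        (∀ i j, i ≠ j → (α i).1 * (α j).2 - (α i).2 * (α j).1 ≠ 0) →
        ∃ C : ℝ, 0 < C ∧ ∀ R : ℝ, 16 ≤ R →
          (small T α R).Finite ∧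
          ((small T α R).ncard : ℝ) ≤
            C * R ^ (3 * (d : ℝ) / q) * Real.log (Real.log R) ^ k / Real.log R := by
  classical
  rcases Nat.eq_zero_or_pos d with hd | hd
  · refine ⟨0, fun K _ _ hK => ?_⟩
    have : 0 < Module.finrank ℚ K := Module.finrank_pos
    omega
  obtain ⟨k, hk⟩ := count_pts d q hd hq
  refine ⟨k, ?_⟩
  intro K _ _ hK T hT α hα0 hα
  obtain ⟨C, hC, h⟩ := hk K hK hT.toFinset α hα0 hα
  refine ⟨C, hC, fun R hR => ?_⟩
  have hd0 : (0 : ℝ) < d := by exact_mod_cast hd
  have hcount : ∀ x : K, (d : ℝ) * counting T α x = NT T α x := by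
    intro x
    unfold counting NT
    rw [mul_finsum]
    refine finsum_congr fun v => ?_
    rw [finsum_eq_if, finsum_eq_if]
    split_ifs with hv
    · rw [mul_zero]
    rw [Finset.mul_sum]
    refine Finset.sum_congr rfl fun l _ => ?_
    rw [hK, mul_min_of_nonneg _ _ hd0.le, mul_div_cancel₀ _ hd0.ne', mul_div_cancel₀ _ hd0.ne']
    rfl
  have hfin : ∀ E : Finset K, (E : Set K) ⊆ small T α R →
      (E.card : ℝ) ≤ C * R ^ (3 * (d : ℝ) / q) * Real.log (Real.log R) ^ k / Real.log R := by
    intro E hE
    refine h R hR E fun x hx => ?_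
    obtain ⟨h1, h2⟩ := hE (Finset.mem_coe.2 hx)
    refine ⟨fun l => h1 l, ?_⟩
    rw [Set.Finite.coe_toFinset, ← hcount x]
    exact mul_le_mul_of_nonneg_left h2 hd0.le
  have hF : (small T α R).Finite := by
    by_contra hinf
    obtain ⟨N, hN⟩ := exists_nat_gt
      (C * R ^ (3 * (d : ℝ) / q) * Real.log (Real.log R) ^ k / Real.log R)
    obtain ⟨E, hE1, hE2⟩ := Set.Infinite.exists_subset_card_eq hinf N
    have := hfin E hE1
    rw [hE2] at this
    linarith
  refine ⟨hF, ?_⟩
  have h1 := hfin hF.toFinset (by rw [Set.Finite.coe_toFinset])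
  rwa [← Set.ncard_eq_toFinset_card _ hF] at h1

end Pool.Agent.Results.MP_4d5ce1_nt.PointsOfAnyHeight
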